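import Pool.Agent.H16.ORB.W

/-! ORB, row BAS. -/

open Polynomial Finset

namespace Pool.ORB

open Classical in
/-- The step of the fixed point of row BAS. -/
noncomputable def basPhi (en : Enu) (ω : Wo) (e : Ad) : Option (List Bool × Bool) :=
  match e with
  | (0, _) => none
  | (i + 1, z) => some (List.replicate z.length false,
      decide (∃ x a : List Bool, z = pair x a ∧ a.length = (al en i).eval x.length ∧
        Tr en i (orc ω) x))

theorem bas (hFIX : FIXStmt) (hORW : ORWStmt) (hACC : ACCStmt) (hSTR : STRStmt) : BASStmt := by
  intro en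
  obtain ⟨hpl, hpi, -, -, hlev⟩ := hSTR
  obtain ⟨-, -, horc⟩ := hORW
  obtain ⟨-, htr, -⟩ := hACC
  obtain ⟨ω, hω⟩ := hFIX Ad (Option (List Bool × Bool)) lev (basPhi en) ⟨none⟩ (by
    intro ω ω' e hag
    obtain ⟨i, z⟩ := e
    cases i with
    | zero => rfl
    | succ i =>
      have key : (∃ x a : List Bool, z = pair x a ∧ a.length = (al en i).eval x.length ∧
          Tr en i (orc ω) x) ↔ (∃ x a : List Bool, z = pair x a ∧
          a.length = (al en i).eval x.length ∧ Tr en i (orc ω') x) := by
        constructor
        · rintro ⟨x, a, hz, ha, ht⟩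
          refine ⟨x, a, hz, ha, (htr en i _ _ x (horc _ _ _ ?_)).1 ht⟩
          intro e' he'
          apply hag
          have h1 := (hlev (i + 1, z)).1
          have h2 : z.length = 2 * x.length + 1 + a.length := by rw [hz, hpl]
          simp only at h1
          omega
        · rintro ⟨x, a, hz, ha, ht⟩
          refine ⟨x, a, hz, ha, (htr en i _ _ x (horc _ _ _ ?_)).2 ht⟩
          intro e' he'
          apply hag
          have h1 := (hlev (i + 1, z)).1
          have h2 : z.length = 2 * x.length + 1 + a.length := by rw [hz, hpl]
          simp only at h1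
          omega
      show some _ = some _
      rw [Option.some.injEq, Prod.mk.injEq]
      exact ⟨rfl, decide_eq_decide.2 key⟩)
  refine ⟨ω, ?_, ?_, ?_⟩
  · intro e w b he
    obtain ⟨i, z⟩ := e
    rw [← hω] at he
    cases i with
    | zero => simp [basPhi] at he
    | succ i =>
      simp only [basPhi, Option.some.injEq, Prod.mk.injEq] at he
      rw [← he.1]
      simp
  · intro i z h
    rw [← hω] at h
    simp [basPhi] at h
  · intro i n
    refine ⟨List.replicate ((al en i).eval n) false, by simp, ?_⟩
    intro x hx
    constructor
    · rintro ⟨w, hw⟩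
      rw [← hω] at hw
      simp only [basPhi, Option.some.injEq, Prod.mk.injEq, decide_eq_true_eq] at hw
      obtain ⟨-, x', a', hz, -, ht⟩ := hw
      obtain ⟨h1, -⟩ := hpi _ _ _ _ hz
      rw [h1]; exact ht
    · intro ht
      refine ⟨List.replicate (pair x (List.replicate ((al en i).eval n) false)).length false, ?_⟩
      have e1 : ω (i + 1, pair x (List.replicate ((al en i).eval n) false)) =
          basPhi en ω (i + 1, pair x (List.replicate ((al en i).eval n) false)) := by
        rw [hω]
      rw [e1]
      simp only [basPhi, Option.some.injEq, Prod.mk.injEq, decide_eq_true_eq, true_and]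
      exact ⟨x, _, rfl, by simp [hx], ht⟩

end Pool.ORB
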