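import Pool.Agent.H16.ORB.C

/-! ORB, row END. -/

open Classical Finset

namespace Pool.ORB

theorem end_row : ENDStmt := by
  intro p hp
  have hp0 : (0 : ℝ) < (p : ℝ) := by exact_mod_cast hp
  set m := 2 * p + 2 * (p + 2) * (p + 3) with hm
  have hT : Tp p = 2 * m := by unfold Tp; rw [hm]; ring
  have hmpos : m ≠ 0 := by rw [hm]; positivity
  have h8 : (8 : ℝ) * (p : ℝ) ≤ 2 ^ (p + 3) := by
    have h : p ≤ 2 ^ p := Nat.lt_two_pow_self.le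
    have h' : (p : ℝ) ≤ 2 ^ p := by exact_mod_cast h
    calc (8 : ℝ) * (p : ℝ) ≤ 8 * 2 ^ p := by linarith
      _ = 2 ^ (p + 3) := by rw [pow_add]; ring
  have h1 : ((5 : ℝ) / 8) ^ Tp p < (1 / 2) ^ m := by
    rw [hT, pow_mul]
    exact pow_lt_pow_left₀ (by norm_num) (by norm_num) hmpos
  have h2 : (4 : ℝ) ^ p * (1 / 2) ^ m = (1 / 2 ^ (p + 3)) ^ (2 * (p + 2)) := by
    have e1 : (4 : ℝ) ^ p = 2 ^ (2 * p) := by rw [pow_mul]; norm_num
    have e2 : (1 / (2 : ℝ)) ^ m = 1 / 2 ^ (2 * p) * (1 / 2 ^ ((p + 3) * (2 * (p + 2)))) := by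
      have : m = 2 * p + (p + 3) * (2 * (p + 2)) := by rw [hm]; ring
      rw [this, one_div_pow, pow_add]
      field_simp
    rw [e1, e2, one_div_pow, ← pow_mul]
    have : (2 : ℝ) ^ (2 * p) ≠ 0 := by positivity
    field_simp
  have h3 : ((1 : ℝ) / 2 ^ (p + 3)) ^ (2 * (p + 2)) ≤ (1 / (8 * (p : ℝ))) ^ (2 * (p + 2)) := by
    apply pow_le_pow_left₀ (by positivity)
    exact one_div_le_one_div_of_le (by positivity) h8
  have h4 : (1 / (8 * (p : ℝ))) ^ Hp p * (1 / (8 * (p : ℝ))) ^ Hp p =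
      (1 / (8 * (p : ℝ))) ^ (2 * (p + 2)) := by
    rw [← pow_add]; congr 1; unfold Hp; ring
  rw [h4]
  calc (4 : ℝ) ^ p * (5 / 8) ^ Tp p < 4 ^ p * (1 / 2) ^ m :=
        mul_lt_mul_of_pos_left h1 (by positivity)
    _ = (1 / 2 ^ (p + 3)) ^ (2 * (p + 2)) := h2
    _ ≤ _ := h3

end Pool.ORB
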