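import Pool.Agent.H16.ORB.C

/-! ORB, row GRW. -/

open Classical Finset

namespace Pool.ORB

theorem grw : GRWStmt := by
  intro E Nd Sg W _ _ _ D m hm
  have hH : (0 : ℝ) < (Hp D.p : ℝ) := by
    unfold Hp; push_cast; positivity
  have hH1 : (1 : ℝ) ≤ (Hp D.p : ℝ) := by
    unfold Hp; push_cast
    have : (0 : ℝ) ≤ (D.p : ℝ) := Nat.cast_nonneg _
    linarith
  have hT1 : (1 : ℝ) ≤ (Tp D.p : ℝ) := by
    have h : 1 ≤ Tp D.p := by
      have := D.hp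
      unfold Tp; nlinarith [this, Nat.zero_le (4 * (D.p + 2) * (D.p + 3))]
    exact_mod_cast h
  have hT : (0 : ℝ) < (Tp D.p : ℝ) := lt_of_lt_of_le one_pos hT1
  have hε : D.ε = 1 / (4 * (Hp D.p : ℝ) * (Tp D.p : ℝ)) := rfl
  have hε0 : 0 ≤ D.ε := by rw [hε]; positivity
  -- (1+ε)^k ≤ 1 + 2 k ε for k ε ≤ 1
  have key : ∀ k : ℕ, (k : ℝ) * D.ε ≤ 1 → (1 + D.ε) ^ k ≤ 1 + 2 * ((k : ℝ) * D.ε) := by
    intro k hk
    have h1 : (1 + D.ε) ^ k ≤ Real.exp ((k : ℝ) * D.ε) := by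
      have h2 : 1 + D.ε ≤ Real.exp D.ε := by
        have := Real.add_one_le_exp D.ε; linarith
      calc (1 + D.ε) ^ k ≤ (Real.exp D.ε) ^ k := pow_le_pow_left₀ (by linarith) h2 k
        _ = Real.exp ((k : ℝ) * D.ε) := by rw [← Real.exp_nat_mul]
    have h3 : Real.exp ((k : ℝ) * D.ε) ≤ 1 + 2 * ((k : ℝ) * D.ε) := by
      set x := (k : ℝ) * D.ε with hx
      have hx0 : 0 ≤ x := by positivity
      have habs : |x| ≤ 1 := by rw [abs_of_nonneg hx0]; exact hk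
      have := Real.abs_exp_sub_one_sub_id_le habs
      have h4 : Real.exp x - 1 - x ≤ x ^ 2 := (le_abs_self _).trans this
      nlinarith
    exact h1.trans h3
  have hmH : (m : ℝ) ≤ (Hp D.p : ℝ) := by exact_mod_cast hm
  have hmε : (m : ℝ) * D.ε ≤ 1 / (4 * (Tp D.p : ℝ)) := by
    calc (m : ℝ) * D.ε ≤ (Hp D.p : ℝ) * D.ε := mul_le_mul_of_nonneg_right hmH hε0
      _ = 1 / (4 * (Tp D.p : ℝ)) := by
          rw [hε]; field_simp
  have hle1 : (m : ℝ) * D.ε ≤ 1 := by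
    refine hmε.trans ?_
    rw [div_le_one (by positivity)]
    linarith
  have := key m hle1
  have h5 : (1 + D.ε) ^ m - 1 ≤ 2 * (1 / (4 * (Tp D.p : ℝ))) := by linarith
  refine h5.trans (le_of_eq ?_)
  field_simp
  norm_num

end Pool.ORB
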