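import Pool.Agent.H16.ORB.W

/-! ORB, row ORW. -/

open Polynomial Finset

namespace Pool.ORB

theorem orw (hSTR : STRStmt) : ORWStmt := by
  obtain ⟨-, -, hlen, hinj, -⟩ := hSTR
  refine ⟨?_, ?_, ?_⟩
  · intro ω i z w b hw
    constructor
    · rintro ⟨e, w', b', he, hw', hs⟩
      obtain ⟨h1, h2, h3⟩ := hinj _ _ _ _ _ _ hs
      have h4 := h3 (by simp)
      subst h1; subst h2; subst h4
      exact he
    · intro h
      exact ⟨(i + 1, z), w, b, h, hw, rfl⟩
  · intro ω z w hw
    have hstr : ∀ b, str (0, z) w b = false :: pair z w := by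
      intro b
      simp [str, pre]
    constructor
    · rintro ⟨e, w', b', he, hw', hs⟩
      rw [← hstr b'] at hs
      obtain ⟨h1, h2, -⟩ := hinj _ _ _ _ _ _ hs
      subst h1; subst h2
      exact ⟨b', he⟩
    · rintro ⟨b, h⟩
      exact ⟨(0, z), w, b, h, hw, (hstr b).symm⟩
  · intro n ω ω' hag s hs
    constructor
    · rintro ⟨e, w, b, he, hw, hse⟩
      refine ⟨e, w, b, ?_, hw, hse⟩
      rw [← hag e (by rw [← hlen e w b hw, ← hse]; exact hs)]
      exact he
    · rintro ⟨e, w, b, he, hw, hse⟩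
      refine ⟨e, w, b, ?_, hw, hse⟩
      rw [hag e (by rw [← hlen e w b hw, ← hse]; exact hs)]
      exact he

end Pool.ORB
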